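import Mathlib
import Pool.Agent.H771R2.HadamardDS

set_option autoImplicit false

namespace Pool.Agent.Results.MP_76589c_co.DensityZero

open Filter Topology

/-- Some finite group `G` (abelian or not) of order `4 w - 1` contains a Hadamard difference set:
a set `D` of `2 w - 1` elements such that every `g ≠ 1` has exactly `w - 1` representations
`g = a * b⁻¹` with `a, b ∈ D`. -/
def HasHadamardDifferenceSet (w : ℕ) : Prop :=
  ∃ (G : Type) (_ : Group G) (_ : Fintype G) (_ : DecidableEq G) (D : Finset G),
    Fintype.card G = 4 * w - 1 ∧ D.card = 2 * w - 1 ∧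
    ∀ g : G, g ≠ 1 → ((D ×ˢ D).filter (fun p : G × G => p.1 * p.2⁻¹ = g)).card = w - 1

/-- The set of all `w ≥ 1` for which some group of order `4 w - 1` contains a
`(4 w - 1, 2 w - 1, w - 1)` difference set has natural density zero. -/
theorem result :
    Tendsto (fun N : ℕ =>
      ({w : ℕ | w < N ∧ 1 ≤ w ∧ HasHadamardDifferenceSet w}.ncard : ℝ) / (N : ℝ))
      atTop (𝓝 0) := by
  classical
  have h := Pool.Agent.H771R2.HadamardDS.main
  refine h.congr fun N => ?_
  have h1 : {w : ℕ | w < N ∧ 1 ≤ w ∧ HasHadamardDifferenceSet w} =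
      ((Finset.range N).filter (fun w => 1 ≤ w ∧
        Pool.Agent.H771R2.HadamardDS.HasHadamard w) : Finset ℕ) := by
    ext n
    simp only [Finset.coe_filter, Finset.mem_range, Set.mem_ofPred_eq]
    rfl
  rw [h1, Set.ncard_coe_finset]
  unfold Pool.Agent.H771R2.Dens.cnt
  congr

end Pool.Agent.Results.MP_76589c_co.DensityZero
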