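import Mathlib
import Pool.Agent.H951R4.OD.Final

set_option autoImplicit false

namespace Pool.Agent.Results.MP_76589c_co.OrderCount

/-- Some finite group `G` (abelian or not) of order `4 w - 1` contains a Hadamard difference set:
a set `D` of `2 w - 1` elements such that every `g ≠ 1` has exactly `w - 1` representations
`g = a * b⁻¹` with `a, b ∈ D`. -/
def HasHadamardDifferenceSet (w : ℕ) : Prop :=
  ∃ (G : Type) (_ : Group G) (_ : Fintype G) (_ : DecidableEq G) (D : Finset G),
    Fintype.card G = 4 * w - 1 ∧ D.card = 2 * w - 1 ∧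
    ∀ g : G, g ≠ 1 → ((D ×ˢ D).filter (fun p : G × G => p.1 * p.2⁻¹ = g)).card = w - 1

/-- For every `ε > 0` there is `C` such that for all `X ≥ 3` at most `C X (log X) ^ (ε - 1)` integers
`1 ≤ w ≤ X` are such that some finite group contains a `(4 w - 1, 2 w - 1, w - 1)` difference
set. -/
theorem result (ε : ℝ) (hε : 0 < ε) :
    ∃ C : ℝ, 0 < C ∧ ∀ X : ℕ, 3 ≤ X →
      ({w : ℕ | 1 ≤ w ∧ w ≤ X ∧ HasHadamardDifferenceSet w}.ncard : ℝ) ≤
      C * X * (Real.log X) ^ (ε - 1) :=
  Pool.Agent.H951R4.OD.hadamard_count ε hε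

end Pool.Agent.Results.MP_76589c_co.OrderCount
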